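import Pool.Agent.N848.AW.Stm

/-!
# Project AW: the class modulo `8` in terms of the labels, and the translation between elements and
sets of primes (helper763; the second part is a port of `Pool/Agent/R426/QK/NS.lean`)

For a primary `D = x + y w` one has `x = 1` modulo `4` and `y` even. The labels are additive on
primary elements, and `D = 5` modulo `8` if and only if `tt D = 0`, `gg D = 1` and `hh D = 1`.
-/

set_option autoImplicit false

open scoped Classical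

namespace Pool.Agent.N763.AW

open Finset
open Pool.Agent.Y698
open Pool.Agent.R426.QK
open Pool.Agent.R426.QD (r4 r4_eq r4_a)
open Pool.Agent.N848.AW

/-! ### Residues -/

theorem r8_eq (x : RR) : r8 x = (cX x : ZMod 8) + 6 * (cY x : ZMod 8) := by
  have h : r8 x = (cX x : ZMod 8) + (cY x : ZMod 8) * 6 := rfl
  rw [h]
  ring

theorem r8_a : r8 aR = 6 := ev_aR _ _

theorem r8_cj (x : RR) : r8 (cj x) = (cX x : ZMod 8) + 3 * (cY x : ZMod 8) := by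
  have h : cj x = (cX x : RR) + (cY x : RR) * (1 - aR) := rfl
  rw [h, map_add, map_mul, map_sub, map_one, r8_a, map_intCast, map_intCast]
  have h8 : (1 : ZMod 8) - 6 = 3 := by decide
  rw [h8]
  ring

theorem nrm_co (x : RR) : ((nrm x : ℕ) : ZMod 8) =
    (cX x : ZMod 8) ^ 2 + (cX x : ZMod 8) * (cY x : ZMod 8) + 2 * (cY x : ZMod 8) ^ 2 := by
  have h := congrArg (fun n : ℤ => (n : ZMod 8)) (nrm_eq' x)
  push_cast at h
  exact h

theorem r4_iff (D : RR) : r4 D = 1 ↔ (cX D + 2 * cY D) % 4 = 1 := by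
  rw [r4_eq]
  have h1 : (1 : ZMod 4) = ((1 : ℤ) : ZMod 4) := by norm_num
  rw [h1, ZMod.intCast_eq_intCast_iff_dvd_sub]
  push_cast
  omega

theorem cj_aR : cj aR = 1 - aR := by
  have h : cj aR = (cX aR : RR) + (cY aR : RR) * (1 - aR) := rfl
  rw [h, cXY_aR.1, cXY_aR.2]
  push_cast
  ring

theorem rr_co (x : RR) : x = (cX x : RR) + (cY x : RR) * aR := (mk_co x).symm

theorem odd_of {D : RR} (h : ¬ cj aR ∣ D) : (cX D + cY D) % 2 = 1 := by
  by_contra hne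
  obtain ⟨k, hk⟩ : ∃ k, cX D + cY D = 2 * k := ⟨(cX D + cY D) / 2, by omega⟩
  apply h
  refine ⟨(k : RR) * aR - (cY D : RR), ?_⟩
  have h2 := two_eq
  rw [cj_aR] at h2 ⊢
  have h3 : ((cX D + cY D : ℤ) : RR) = ((2 * k : ℤ) : RR) := by rw [hk]
  push_cast at h3
  conv_lhs => rw [rr_co D]
  linear_combination h3 + (k : RR) * h2

theorem prm_co {D : RR} (h : prm D) : cX D % 4 = 1 ∧ cY D % 2 = 0 := by
  have h1 := (r4_iff D).1 h.r4
  have h2 := odd_of h.cop2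
  omega

theorem zm_of {n : ℤ} {r : ℤ} (h : n % 8 = r) : (n : ZMod 8) = (r : ZMod 8) := by
  rw [ZMod.intCast_eq_intCast_iff_dvd_sub]
  push_cast
  omega

theorem prm_X {D : RR} (h : prm D) : (cX D : ZMod 8) = 1 ∨ (cX D : ZMod 8) = 5 := by
  have h1 := (prm_co h).1
  have h2 : cX D % 8 = 1 ∨ cX D % 8 = 5 := by omega
  rcases h2 with h2 | h2
  · left
    simpa using zm_of h2
  · right
    simpa using zm_of h2

theorem prm_Y {D : RR} (h : prm D) : (cY D : ZMod 8) = 0 ∨ (cY D : ZMod 8) = 2 ∨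
    (cY D : ZMod 8) = 4 ∨ (cY D : ZMod 8) = 6 := by
  have h1 := (prm_co h).2
  have h2 : cY D % 8 = 0 ∨ cY D % 8 = 2 ∨ cY D % 8 = 4 ∨ cY D % 8 = 6 := by omega
  rcases h2 with h2 | h2 | h2 | h2
  · left
    simpa using zm_of h2
  · right; left
    simpa using zm_of h2
  · right; right; left
    simpa using zm_of h2
  · right; right; right
    simpa using zm_of h2

theorem r8_prm {D : RR} (h : prm D) : r8 D = 1 ∨ r8 D = 5 := by
  rw [r8_eq]
  have key : ∀ X Y : ZMod 8, (X = 1 ∨ X = 5) → (Y = 0 ∨ Y = 2 ∨ Y = 4 ∨ Y = 6) →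
      (X + 6 * Y = 1 ∨ X + 6 * Y = 5) := by decide
  exact key _ _ (prm_X h) (prm_Y h)

theorem cj_prm {D : RR} (h : prm D) : r8 (cj D) = 1 ∨ r8 (cj D) = 3 ∨ r8 (cj D) = 5 ∨
    r8 (cj D) = 7 := by
  rw [r8_cj]
  have key : ∀ X Y : ZMod 8, (X = 1 ∨ X = 5) → (Y = 0 ∨ Y = 2 ∨ Y = 4 ∨ Y = 6) →
      (X + 3 * Y = 1 ∨ X + 3 * Y = 3 ∨ X + 3 * Y = 5 ∨ X + 3 * Y = 7) := by decide
  exact key _ _ (prm_X h) (prm_Y h)

theorem nrm_four (n : ℕ) : n % 4 = 3 ↔ (n : ZMod 8) = 3 ∨ (n : ZMod 8) = 7 := by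
  have h3 : (3 : ZMod 8) = ((3 : ℕ) : ZMod 8) := by norm_num
  have h7 : (7 : ZMod 8) = ((7 : ℕ) : ZMod 8) := by norm_num
  rw [h3, h7, ZMod.natCast_eq_natCast_iff, ZMod.natCast_eq_natCast_iff]
  unfold Nat.ModEq
  omega

theorem nrm_four1 (n : ℕ) : n % 4 = 1 ↔ (n : ZMod 8) = 1 ∨ (n : ZMod 8) = 5 := by
  have h3 : (1 : ZMod 8) = ((1 : ℕ) : ZMod 8) := by norm_num
  have h7 : (5 : ZMod 8) = ((5 : ℕ) : ZMod 8) := by norm_num
  rw [h3, h7, ZMod.natCast_eq_natCast_iff, ZMod.natCast_eq_natCast_iff]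
  unfold Nat.ModEq
  omega

theorem nrm_prm {D : RR} (h : prm D) : nrm D % 4 = 1 ∨ nrm D % 4 = 3 := by
  rw [nrm_four, nrm_four1, nrm_co]
  have key : ∀ X Y : ZMod 8, (X = 1 ∨ X = 5) → (Y = 0 ∨ Y = 2 ∨ Y = 4 ∨ Y = 6) →
      ((X ^ 2 + X * Y + 2 * Y ^ 2 = 1 ∨ X ^ 2 + X * Y + 2 * Y ^ 2 = 5) ∨
        (X ^ 2 + X * Y + 2 * Y ^ 2 = 3 ∨ X ^ 2 + X * Y + 2 * Y ^ 2 = 7)) := by decide
  exact key _ _ (prm_X h) (prm_Y h)

/-! ### The labels are additive -/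

theorem gg_mul {a b : RR} (ha : prm a) (hb : prm b) : gg (a * b) = gg a + gg b := by
  unfold gg
  rw [map_mul]
  rcases r8_prm ha with h | h <;> rcases r8_prm hb with h' | h' <;> rw [h, h'] <;> decide

theorem hh_mul {a b : RR} (ha : prm a) (hb : prm b) : hh (a * b) = hh a + hh b := by
  unfold hh
  rw [map_mul, map_mul]
  rcases cj_prm ha with h | h | h | h <;> rcases cj_prm hb with h' | h' | h' | h' <;>
    rw [h, h'] <;> decide

theorem tt_mul {a b : RR} (ha : prm a) (hb : prm b) : tt (a * b) = tt a + tt b := by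
  unfold tt
  rw [nrm_mul, Nat.mul_mod]
  rcases nrm_prm ha with h | h <;> rcases nrm_prm hb with h' | h' <;> rw [h, h'] <;> decide

theorem gg_one : gg 1 = 0 := by
  unfold gg
  rw [map_one, if_pos rfl]

theorem hh_one : hh 1 = 0 := by
  unfold hh
  rw [map_one, map_one, if_pos (Or.inl rfl)]

theorem tt_one : tt 1 = 0 := by
  unfold tt
  rw [nrm_one, if_neg (by norm_num)]

theorem sum_of {f : RR → ZMod 2} (h1 : f 1 = 0)
    (hm : ∀ a b : RR, prm a → prm b → f (a * b) = f a + f b) {S : Finset RR}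
    (hS : ∀ π ∈ S, Pq π) : ∑ π ∈ S, f π = f (∏ π ∈ S, π) := by
  induction S using Finset.induction_on with
  | empty => rw [Finset.sum_empty, Finset.prod_empty, h1]
  | insert a S ha ih =>
    have h2 : ∀ π ∈ S, Pq π := fun π hπ => hS π (Finset.mem_insert_of_mem hπ)
    rw [Finset.sum_insert ha, Finset.prod_insert ha, ih h2,
      hm _ _ (hS a (Finset.mem_insert_self _ _)).prm (prm_prod fun π hπ => (h2 π hπ).prm)]

theorem sum_gg {S : Finset RR} (hS : ∀ π ∈ S, Pq π) : ∑ π ∈ S, gg π = gg (∏ π ∈ S, π) :=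
  sum_of gg_one (fun _ _ => gg_mul) hS

theorem sum_hh {S : Finset RR} (hS : ∀ π ∈ S, Pq π) : ∑ π ∈ S, hh π = hh (∏ π ∈ S, π) :=
  sum_of hh_one (fun _ _ => hh_mul) hS

theorem sum_tt {S : Finset RR} (hS : ∀ π ∈ S, Pq π) : ∑ π ∈ S, tt π = tt (∏ π ∈ S, π) :=
  sum_of tt_one (fun _ _ => tt_mul) hS

theorem tt_zero_iff {D : RR} (h : prm D) : tt D = 0 ↔ nrm D % 4 = 1 := by
  unfold tt
  rcases nrm_prm h with h1 | h1
  · rw [if_neg (by omega)]
    exact ⟨fun _ => h1, fun _ => rfl⟩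
  · rw [if_pos h1]
    constructor
    · intro h2
      exact absurd h2 (by decide)
    · intro h2
      omega

/-! ### The class modulo 8 -/

theorem eight_dvd_iff (D : RR) : (8 : RR) ∣ D - 5 ↔ (8 : ℤ) ∣ cX D - 5 ∧ (8 : ℤ) ∣ cY D := by
  have h5 : cX (5 : RR) = 5 ∧ cY (5 : RR) = 0 := by
    have := cXY_int 5
    push_cast at this
    exact this
  have h1 : cX (D - 5) = cX D - 5 ∧ cY (D - 5) = cY D := by
    rw [sub_eq_add_neg, (cXY_add _ _).1, (cXY_add _ _).2, (cXY_neg _).1, (cXY_neg _).2,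
      h5.1, h5.2]
    constructor <;> ring
  have h4 : cX (8 : RR) = 8 ∧ cY (8 : RR) = 0 := by
    have := cXY_int 8
    push_cast at this
    exact this
  constructor
  · rintro ⟨c, hc⟩
    rw [← h1.1, ← h1.2, hc, (cXY_mul _ _).1, (cXY_mul _ _).2, h4.1, h4.2]
    exact ⟨⟨cX c, by ring⟩, ⟨cY c, by ring⟩⟩
  · rintro ⟨⟨a, ha⟩, ⟨b, hb⟩⟩
    refine ⟨mk (a, b), RR_ext ?_ ?_⟩
    · rw [h1.1, (cXY_mul _ _).1, h4.1, h4.2, (cXY_mk _).1, ha]
      ring
    · rw [h1.2, (cXY_mul _ _).2, h4.1, h4.2, (cXY_mk _).2, hb]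
      ring

theorem res_iff {D : RR} (h : prm D) :
    (8 : RR) ∣ D - 5 ↔ tt D = 0 ∧ gg D = 1 ∧ hh D = 1 := by
  rw [eight_dvd_iff, tt_zero_iff h, nrm_four1, nrm_co]
  have e1 : gg D = 1 ↔ r8 D ≠ 1 := by
    unfold gg
    split_ifs with h1
    · exact ⟨fun h2 => absurd h2 (by decide), fun h2 => absurd h1 h2⟩
    · exact ⟨fun _ => h1, fun _ => rfl⟩
  have e2 : hh D = 1 ↔ ¬ (r8 (cj D) = 1 ∨ r8 (cj D) = 7) := by
    unfold hh
    split_ifs with h1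
    · exact ⟨fun h2 => absurd h2 (by decide), fun h2 => absurd h1 h2⟩
    · exact ⟨fun _ => h1, fun _ => rfl⟩
  rw [e1, e2, r8_eq, r8_cj]
  have e3 : (8 : ℤ) ∣ cX D - 5 ↔ (cX D : ZMod 8) = 5 := by
    have h5 : (5 : ZMod 8) = ((5 : ℤ) : ZMod 8) := by norm_num
    rw [h5, ZMod.intCast_eq_intCast_iff_dvd_sub]
    push_cast
    omega
  have e4 : (8 : ℤ) ∣ cY D ↔ (cY D : ZMod 8) = 0 := by
    rw [ZMod.intCast_zmod_eq_zero_iff_dvd]
    rfl
  rw [e3, e4]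
  have key : ∀ X Y : ZMod 8, (X = 1 ∨ X = 5) → (Y = 0 ∨ Y = 2 ∨ Y = 4 ∨ Y = 6) →
      ((X = 5 ∧ Y = 0) ↔
        ((X ^ 2 + X * Y + 2 * Y ^ 2 = 1 ∨ X ^ 2 + X * Y + 2 * Y ^ 2 = 5) ∧
          X + 6 * Y ≠ 1 ∧ ¬ (X + 3 * Y = 1 ∨ X + 3 * Y = 7))) := by decide
  exact key _ _ (prm_X h) (prm_Y h)

theorem prm_of {D : RR} (h : Cls5 D) : prm D := by
  obtain ⟨-, h2, h3⟩ := h
  refine ⟨?_, ?_, h3⟩
  · rw [eight_dvd_iff] at h2
    rw [r4_iff]
    omega
  · intro hc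
    have d2 : cj aR ∣ (2 : RR) := by
      rw [two_eq]
      exact dvd_mul_left _ _
    have d8 : cj aR ∣ D - 5 := (d2.trans ⟨4, by norm_num⟩).trans h2
    have d5 : cj aR ∣ (5 : RR) := by
      have := dvd_sub hc d8
      rwa [sub_sub_cancel] at this
    have d1 : cj aR ∣ (1 : RR) := by
      have h4 := dvd_sub d5 (d2.mul_right 2)
      have h5 : (5 : RR) - 2 * 2 = 1 := by norm_num
      rwa [h5] at h4
    exact prime_cjaR.not_isUnit (isUnit_of_dvd_one d1)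

theorem cls_iff (D : RR) : Cls5 D ↔ PS D ∧ tt D = 0 ∧ gg D = 1 ∧ hh D = 1 := by
  constructor
  · intro h
    have hp := prm_of h
    exact ⟨⟨hp, h.1⟩, (res_iff hp).1 h.2.1⟩
  · rintro ⟨hP, h⟩
    exact ⟨hP.sqf, (res_iff hP.prm).2 h, hP.prm.cop7⟩

theorem t_CLS : S_CLS := by
  constructor
  · intro D h
    obtain ⟨hP, h1, h2, h3⟩ := (cls_iff D).1 h
    have hq : ∀ π ∈ Pool.Agent.R426.QK.PD D, Pq π := fun π hπ => ((mem_PD hP.ne).1 hπ).1
    refine ⟨hq, hP.prod, ?_, ?_, ?_⟩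
    · rw [sum_tt hq, hP.prod, h1]
    · rw [sum_gg hq, hP.prod, h2]
    · rw [sum_hh hq, hP.prod, h3]
  · rintro S hS h1 ⟨h2, h3⟩
    obtain ⟨h5, -⟩ := PS_prod hS
    rw [sum_tt hS] at h1
    rw [sum_gg hS] at h2
    rw [sum_hh hS] at h3
    exact (cls_iff _).2 ⟨h5, h1, h2, h3⟩

/-! ### Translation between elements and sets of primes -/

theorem nrm_prod (S : Finset RR) : nrm (∏ π ∈ S, π) = ∏ π ∈ S, nrm π := by
  induction S using Finset.induction_on with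
  | empty => rw [Finset.prod_empty, Finset.prod_empty, nrm_one]
  | insert a S ha ih => rw [Finset.prod_insert ha, Finset.prod_insert ha, nrm_mul, ih]

theorem mem_S5 {X : ℕ} {S : Finset RR} : S ∈ S5 X ↔ S ⊆ QB X ∧ (∀ π ∈ S, Pq π) ∧
    ∑ π ∈ S, tt π = 0 ∧ C5 S ∧ ∏ π ∈ S, nrm π ≤ X := by
  unfold S5 SS
  rw [Finset.mem_filter, Finset.mem_filter, Finset.mem_powerset]
  unfold Cl
  constructor
  · rintro ⟨⟨h1, ⟨h2, h3⟩, h4⟩, h5⟩
    refine ⟨h1, h2, ?_, h5, h4⟩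
    rw [sum_tt h2, tt_zero_iff (prm_prod fun π hπ => (h2 π hπ).prm), nrm_prod]
    exact h3
  · rintro ⟨h1, h2, h3, h4, h5⟩
    refine ⟨⟨h1, ⟨h2, ?_⟩, h5⟩, h4⟩
    rw [sum_tt h2, tt_zero_iff (prm_prod fun π hπ => (h2 π hπ).prm), nrm_prod] at h3
    exact h3

theorem card_eq (hC : S_CLS) (X : ℕ) (Q : Finset RR → Prop) :
    {D : RR | nrm D ≤ X ∧ Cls5 D ∧ Q (Pool.Agent.R426.QK.PD D)}.ncard =
      ((S5 X).filter Q).card := by
  have h1 : {D : RR | nrm D ≤ X ∧ Cls5 D ∧ Q (Pool.Agent.R426.QK.PD D)} =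
      (fun S : Finset RR => ∏ π ∈ S, π) '' (((S5 X).filter Q : Finset (Finset RR)) :
        Set (Finset RR)) := by
    ext D
    constructor
    · rintro ⟨h4, h2, h3⟩
      obtain ⟨a1, a2, a3, a4⟩ := hC.1 D h2
      have hne : D ≠ 0 := prm_ne_zero (prm_of h2)
      refine ⟨Pool.Agent.R426.QK.PD D, ?_, a2⟩
      rw [Finset.mem_coe, Finset.mem_filter, mem_S5]
      refine ⟨⟨fun π hπ => ?_, a1, a3, a4, ?_⟩, h3⟩
      · obtain ⟨h5, h6⟩ := (mem_PD hne).1 hπ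
        exact mem_QB.2 ⟨(norm_le_of_dvd hne h6).trans h4, h5⟩
      · rw [← nrm_prod, a2]
        exact h4
    · rintro ⟨S, hS, rfl⟩
      rw [Finset.mem_coe, Finset.mem_filter, mem_S5] at hS
      obtain ⟨⟨-, h3, h4, h5, h6⟩, h2⟩ := hS
      refine ⟨?_, hC.2 S h3 h4 h5, by rw [(PS_prod h3).2]; exact h2⟩
      rw [nrm_prod]
      exact h6
  rw [h1, Set.InjOn.ncard_image, Set.ncard_coe_finset]
  intro S hS S' hS' h
  rw [Finset.mem_coe, Finset.mem_filter, mem_S5] at hS hS'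
  rw [← (PS_prod hS.1.2.1).2, ← (PS_prod hS'.1.2.1).2]
  exact congrArg Pool.Agent.R426.QK.PD h

theorem t_NS5 : S_NS5 := by
  intro hC h
  unfold S_DQ5 at h
  unfold S_DEN5
  refine h.congr fun X => ?_
  have e1 : {D : RR | nrm D ≤ X ∧ Cls5 D}.ncard = (S5 X).card := by
    have h := card_eq hC X (fun _ => True)
    rw [Finset.filter_true] at h
    rw [← h]
    congr 1
    ext D
    simp only [Set.mem_ofPred_eq, and_true]
  have e2 : {D : RR | nrm D ≤ X ∧ Good5 D}.ncard = ((S5 X).filter G2).card := by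
    rw [← card_eq hC X G2]
    rfl
  rw [e1, e2]

end Pool.Agent.N763.AW
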